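import Mathlib

/-!
Project QJ (helper261), MP_28f04c_an: every hyperbolic polynomial with connected Julia set has a
Julia set with infinitely many quasisymmetries. Definitions and exact statements of the pieces.
-/

set_option autoImplicit false
open Filter Topology Set Metric

namespace Pool.Agent.W261.QJ

/-- iterates of a polynomial -/
noncomputable def it (f : Polynomial ℂ) (n : ℕ) (z : ℂ) : ℂ := (fun w : ℂ => f.eval w)^[n] z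

/-- the iterate polynomial -/
noncomputable def ip (f : Polynomial ℂ) (n : ℕ) : Polynomial ℂ := (f.comp)^[n] Polynomial.X

/-- the filled Julia set -/
def FK (f : Polynomial ℂ) : Set ℂ :=
  {z : ℂ | Bornology.IsBounded (Set.range (fun n : ℕ => (fun w : ℂ => f.eval w)^[n] z))}

/-- the Julia set -/
def FJ (f : Polynomial ℂ) : Set ℂ := frontier (FK f)

/-- `exp (2 pi i t)` -/
noncomputable def ee (t : ℝ) : ℂ := Complex.exp (2 * Real.pi * t * Complex.I)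

/-- hyperbolic with connected Julia set; `P` plays the role of the postcritical set -/
structure HS (f : Polynomial ℂ) (P : Set ℂ) : Prop where
  deg : 2 ≤ f.natDegree
  conn : IsConnected (FJ f)
  closed : IsClosed P
  inv : ∀ z ∈ P, f.eval z ∈ P
  crit : ∀ c : ℂ, f.derivative.eval c = 0 → f.eval c ∈ P
  disj : Disjoint P (FJ f)

/-- basic facts about the filled Julia set -/
structure Base (f : Polynomial ℂ) : Prop where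
  deg : 2 ≤ f.natDegree
  compK : IsCompact (FK f)
  compJ : IsCompact (FJ f)
  subJ : FJ f ⊆ FK f
  nontriv : (FK f).Nontrivial
  neJ : (FJ f).Nonempty
  invK : ∀ z, f.eval z ∈ FK f ↔ z ∈ FK f
  invJ : ∀ z, f.eval z ∈ FJ f ↔ z ∈ FJ f
  invI : ∀ z, f.eval z ∈ interior (FK f) ↔ z ∈ interior (FK f)
  esc : ∃ R : ℝ, 0 < R ∧ FK f ⊆ ball 0 R ∧ ∀ z : ℂ, R ≤ ‖z‖ → 2 * ‖z‖ ≤ ‖f.eval z‖
  tend : ∀ z : ℂ, z ∉ FK f → Tendsto (fun n => ‖it f n z‖) atTop atTop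
  compl : IsConnected (FK f)ᶜ

/-- BASE -/
def S_base : Prop := ∀ f : Polynomial ℂ, 2 ≤ f.natDegree → Base f

/-- KCONN -/
def S_kconn : Prop := ∀ f : Polynomial ℂ, Base f → IsConnected (FJ f) → IsConnected (FK f)

/-- ITER -/
def S_iter : Prop :=
  (∀ (f : Polynomial ℂ) (n : ℕ) (z : ℂ), (ip f n).eval z = it f n z) ∧
  (∀ (f : Polynomial ℂ) (n k : ℕ) (z : ℂ), it (ip f n) k z = it f (n * k) z) ∧
  (∀ (f : Polynomial ℂ) (n : ℕ), 1 ≤ n → FK (ip f n) = FK f) ∧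
  (∀ (f : Polynomial ℂ) (P : Set ℂ) (n : ℕ), 1 ≤ n → HS f P → HS (ip f n) P)

/-- compact subsets can be filled inside `W` -/
def FC (W : Set ℂ) : Prop :=
  ∀ L ⊆ W, IsCompact L → ∃ L' ⊆ W, L ⊆ L' ∧ IsCompact L' ∧ IsConnected L'ᶜ

/-- zero free holomorphic functions have square roots -/
def SQ (W : Set ℂ) : Prop :=
  ∀ u : ℂ → ℂ, DifferentiableOn ℂ u W → (∀ z ∈ W, u z ≠ 0) →
    ∃ s : ℂ → ℂ, DifferentiableOn ℂ s W ∧ ∀ z ∈ W, s z ^ 2 = u z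

/-- SQRT -/
def S_sqrt : Prop := ∀ W : Set ℂ, IsOpen W → IsConnected W → FC W → SQ W

/-- FILL -/
def S_fill : Prop := ∀ L : Set ℂ, IsCompact L → ∃ L' : Set ℂ, L ⊆ L' ∧ IsCompact L' ∧
  IsConnected L'ᶜ ∧ ∀ z ∈ L', z ∉ L → ∃ V : Set ℂ, IsOpen V ∧ IsConnected V ∧
    Bornology.IsBounded V ∧ z ∈ V ∧ Disjoint V L ∧ frontier V ⊆ L

/-- Riemann map of the exterior of `K` -/
structure ExtMap (φ : ℂ → ℂ) (K : Set ℂ) (a : ℂ) : Prop where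
  diff : DifferentiableOn ℂ φ {w | 1 < ‖w‖}
  inj : InjOn φ {w | 1 < ‖w‖}
  image : φ '' {w | 1 < ‖w‖} = Kᶜ
  ne : a ≠ 0
  lim : Tendsto (fun w => φ w / w) (Bornology.cobounded ℂ) (𝓝 a)
  bdd : ∃ M : ℝ, ∀ w : ℂ, 1 < ‖w‖ → ‖w‖ ≤ 2 → ‖φ w‖ ≤ M

/-- RINF -/
def S_rinf : Prop := S_sqrt → S_fill → ∀ K : Set ℂ, IsCompact K → IsConnected K → K.Nontrivial →
  IsConnected Kᶜ → ∃ (φ : ℂ → ℂ) (a : ℂ), ExtMap φ K a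

/-- Boettcher map -/
structure Bott (f : Polynomial ℂ) (φ : ℂ → ℂ) : Prop where
  ext : ∃ a : ℂ, ExtMap φ (FK f) a
  conj : ∀ w : ℂ, 1 < ‖w‖ → f.eval (φ w) = φ (w ^ f.natDegree)

/-- BOTT -/
def S_bott : Prop := ∀ (f : Polynomial ℂ) (φ : ℂ → ℂ) (a : ℂ), Base f → ExtMap φ (FK f) a →
  ∃ φ' : ℂ → ℂ, Bott f φ'

/-- CRIT -/
def S_crit : Prop := ∀ (f : Polynomial ℂ) (φ : ℂ → ℂ), Base f → Bott f φ →
  ∀ c : ℂ, f.derivative.eval c = 0 → c ∈ FK f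

/-- expansion on the Julia set in one step -/
def Ex (f : Polynomial ℂ) : Prop := ∀ z ∈ FJ f, 2 ≤ ‖f.derivative.eval z‖

/-- EXP -/
def S_exp : Prop := ∀ (f : Polynomial ℂ) (P : Set ℂ), HS f P → Base f →
  ∃ m : ℕ, 1 ≤ m ∧ Ex (ip f m)

/-- uniform local expansion at scale `ε` -/
structure Loc (f : Polynomial ℂ) (ε : ℝ) : Prop where
  pos : 0 < ε
  exp : ∀ z w : ℂ, infDist z (FJ f) < 2 * ε → dist z w < 2 * ε →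
    3 / 2 * dist z w ≤ dist (f.eval z) (f.eval w)
  onto : ∀ z ∈ FJ f, ∀ q : ℂ, dist q (f.eval z) < ε →
    ∃ w : ℂ, f.eval w = q ∧ dist w z ≤ 2 / 3 * dist q (f.eval z)
  back : ∀ z : ℂ, infDist (f.eval z) (FJ f) < ε →
    infDist z (FJ f) ≤ 2 / 3 * infDist (f.eval z) (FJ f)

/-- LOC -/
def S_loc : Prop := ∀ f : Polynomial ℂ, Base f → Ex f → ∃ ε : ℝ, Loc f ε

/-- inverse branch of `f^n` along the orbit of `x` -/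
structure IB (f : Polynomial ℂ) (ε : ℝ) (x : ℂ) (n : ℕ) (g : ℂ → ℂ) : Prop where
  right : ∀ q ∈ ball (it f n x) ε, it f n (g q) = q
  near : ∀ q ∈ ball (it f n x) ε, ∀ j ≤ n,
    dist (it f j (g q)) (it f j x) ≤ (2 / 3 : ℝ) ^ (n - j) * dist q (it f n x)
  lip : ∀ q ∈ ball (it f n x) ε, ∀ q' ∈ ball (it f n x) ε,
    dist (g q) (g q') ≤ (2 / 3 : ℝ) ^ n * dist q q'
  uniq : ∀ w : ℂ, (∀ j ≤ n, dist (it f j w) (it f j x) < ε) → g (it f n w) = w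

/-- INV -/
def S_inv : Prop := ∀ (f : Polynomial ℂ) (ε : ℝ), Base f → Loc f ε → ∀ x ∈ FJ f, ∀ n : ℕ,
  ∃ g : ℂ → ℂ, IB f ε x n g

/-- the external ray of angle `θ` lands at `z` -/
def Lands (φ : ℂ → ℂ) (θ : ℝ) (z : ℂ) : Prop :=
  Tendsto (fun r : ℝ => φ ((r : ℂ) * ee θ)) (𝓝[>] 1) (𝓝 z)

/-- the Caratheodory loop -/
structure Loop (f : Polynomial ℂ) (φ : ℂ → ℂ) (ψ : ℝ → ℂ) : Prop where
  cont : Continuous ψ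
  per : ∀ θ : ℝ, ψ (θ + 1) = ψ θ
  conj : ∀ θ : ℝ, f.eval (ψ θ) = ψ ((f.natDegree : ℝ) * θ)
  range : Set.range ψ = FJ f
  land : ∀ θ : ℝ, Lands φ θ (ψ θ)

/-- LOOP -/
def S_loop : Prop := ∀ (f : Polynomial ℂ) (ε : ℝ) (φ : ℂ → ℂ), Base f → Loc f ε → Bott f φ →
  ∃ ψ : ℝ → ℂ, Loop f φ ψ

/-- ANG -/
def S_ang : Prop := ∀ (f : Polynomial ℂ) (ε : ℝ) (φ : ℂ → ℂ) (ψ : ℝ → ℂ), Base f → Loc f ε →
  Bott f φ → Loop f φ ψ → ∀ x ∈ FJ f, ∀ p : ℕ, 1 ≤ p → it f p x = x →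
  ∃ θ : ℝ, 0 ≤ θ ∧ θ < 1 ∧ ψ θ = x ∧
    ∃ n : ℕ, 1 ≤ n ∧ ∃ m : ℤ, (f.natDegree : ℝ) ^ (p * n) * θ = θ + m

/-- SEP -/
def S_sep : Prop := ∀ (K : Set ℂ) (φ : ℂ → ℂ) (a : ℂ), IsCompact K → ExtMap φ K a →
  ∀ (α τ₁ β τ₂ : ℝ) (w z₁ z₂ : ℂ) (Z : Set ℂ), α < τ₁ → τ₁ < β → β < τ₂ → τ₂ < α + 1 →
  Lands φ α w → Lands φ β w → Lands φ τ₁ z₁ → Lands φ τ₂ z₂ →
  IsPreconnected Z → Z ⊆ K → z₁ ∈ Z → z₂ ∈ Z → w ∈ Z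

/-- a component of the interior of `K` -/
structure Cmp (f : Polynomial ℂ) (U : Set ℂ) : Prop where
  op : IsOpen U
  conn : IsConnected U
  sub : U ⊆ FK f
  front : frontier U ⊆ FJ f

/-- CMP -/
def S_cmp : Prop := ∀ (f : Polynomial ℂ) (P : Set ℂ), HS f P → Base f → (P ∩ FK f).Nonempty →
  ∃ (U : Set ℂ) (m : ℕ), 1 ≤ m ∧ Cmp f U ∧ (P ∩ U).Nonempty ∧ it f m '' U = U

/-- Riemann map of `U` -/
structure RM (h : ℂ → ℂ) (U : Set ℂ) : Prop where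
  diff : DifferentiableOn ℂ h (ball 0 1)
  inj : InjOn h (ball 0 1)
  image : h '' ball 0 1 = U

/-- RMU -/
def S_rmu : Prop := S_sqrt → S_fill → ∀ (f : Polynomial ℂ) (U : Set ℂ), Base f → Cmp f U →
  ∃ h : ℂ → ℂ, RM h U

/-- NB -/
def S_nb : Prop := ∀ (f : Polynomial ℂ) (P U : Set ℂ) (h : ℂ → ℂ) (ε : ℝ), Base f → HS f P →
  Loc f ε → Cmp f U → RM h U →
  ∃ (N : Set ℂ) (k : ℕ), 1 ≤ k ∧ IsOpen N ∧ IsPathConnected N ∧ N ⊆ U ∧ Disjoint N P ∧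
    (∀ z ∈ N, infDist z (FJ f) < ε) ∧ (∀ z ∈ U, it f k z ∈ N → z ∈ N)

/-- NINJ -/
def S_ninj : Prop := ∀ (f : Polynomial ℂ) (P U : Set ℂ) (h : ℂ → ℂ) (ε : ℝ), Base f → HS f P →
  Loc f ε → Cmp f U → RM h U → (P ∩ U).Nonempty → (fun z => f.eval z) '' U = U →
  ¬ InjOn (fun z => f.eval z) U

/-- TWO -/
def S_two : Prop := ∀ (f : Polynomial ℂ) (U N : Set ℂ), Base f → Cmp f U →
  (fun z => f.eval z) '' U = U → ¬ InjOn (fun z => f.eval z) U →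
  IsOpen N → N.Nonempty → N ⊆ U →
  ∃ u ∈ N, ∃ u₁ ∈ U, ∃ u₂ ∈ U, u₁ ≠ u₂ ∧ f.eval u₁ = u ∧ f.eval u₂ = u

/-- lifting and contraction of paths of `N` under `T` -/
structure LC (T : ℂ → ℂ) (N : Set ℂ) (δ₀ : ℝ) : Prop where
  pos : 0 < δ₀
  lift : ∀ γ : ℝ → ℂ, ContinuousOn γ (Icc 0 1) → (∀ t ∈ Icc (0 : ℝ) 1, γ t ∈ N) →
    ∀ z ∈ N, T z = γ 0 → ∃ γ' : ℝ → ℂ, ContinuousOn γ' (Icc 0 1) ∧
      (∀ t ∈ Icc (0 : ℝ) 1, γ' t ∈ N) ∧ γ' 0 = z ∧ ∀ t ∈ Icc (0 : ℝ) 1, T (γ' t) = γ t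
  contr : ∀ (γ : ℝ → ℂ) (a b : ℝ), ContinuousOn γ (Icc a b) →
    (∀ t ∈ Icc a b, γ t ∈ N) → (∀ t ∈ Icc a b, T (γ t) ∈ N) → ∀ δ : ℝ, δ ≤ δ₀ →
    (∀ s ∈ Icc a b, ∀ t ∈ Icc a b, dist (T (γ s)) (T (γ t)) ≤ δ) →
    ∀ s ∈ Icc a b, ∀ t ∈ Icc a b, dist (γ s) (γ t) ≤ 2 / 3 * δ
  uniq : ∀ γ γ' : ℝ → ℂ, ContinuousOn γ (Icc 0 1) → ContinuousOn γ' (Icc 0 1) →
    (∀ t ∈ Icc (0 : ℝ) 1, γ t ∈ N) → (∀ t ∈ Icc (0 : ℝ) 1, γ' t ∈ N) →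
    (∀ t ∈ Icc (0 : ℝ) 1, T (γ t) = T (γ' t)) → γ 1 = γ' 1 → γ 0 = γ' 0

/-- LIFT -/
def S_lift : Prop := ∀ (f : Polynomial ℂ) (P U N : Set ℂ) (ε : ℝ) (k : ℕ), Base f → HS f P →
  Loc f ε → Cmp f U → 1 ≤ k → it f k '' U = U → IsOpen N → N ⊆ U → Disjoint N P →
  (∀ z ∈ N, infDist z (FJ f) < ε) → (∀ z ∈ U, it f k z ∈ N → z ∈ N) → LC (it f k) N ε

/-- symbol sequences -/
abbrev Sq : Type := ℕ → Bool

/-- the shift -/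
def sh (s : Sq) : Sq := fun n => s (n + 1)

/-- coding tree -/
structure Tree (T : ℂ → ℂ) (N : Set ℂ) (V : ℕ → Sq → ℂ) (A : ℕ → Sq → Set ℂ) (χ : Sq → ℂ)
    (C : ℝ) : Prop where
  Cnn : 0 ≤ C
  mem : ∀ n s, V n s ∈ N
  arcN : ∀ n s, A n s ⊆ N
  conn : ∀ n s, IsPreconnected (A n s)
  left : ∀ n s, V n s ∈ A n s
  right : ∀ n s, V (n + 1) s ∈ A n s
  diam : ∀ n s, ∀ a ∈ A n s, dist a (χ s) ≤ C * (2 / 3 : ℝ) ^ n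
  TV : ∀ n s, T (V (n + 1) s) = V n (sh s)
  Tχ : ∀ s, T (χ s) = χ (sh s)
  dep : ∀ n s s', (∀ i < n, s i = s' i) → V n s = V n s'
  det : ∀ n s s', V n s = V n s' → ∀ i < n, s i = s' i

/-- TREE -/
def S_tree : Prop := ∀ (T : ℂ → ℂ) (N : Set ℂ) (δ₀ : ℝ) (u u₁ u₂ : ℂ), Continuous T →
  LC T N δ₀ → IsPathConnected N → u ∈ N → u₁ ∈ N → u₂ ∈ N → u₁ ≠ u₂ → T u₁ = u → T u₂ = u →
  ∃ (V : ℕ → Sq → ℂ) (A : ℕ → Sq → Set ℂ) (χ : Sq → ℂ) (C : ℝ), Tree T N V A χ C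

/-- TINF -/
def S_tinf : Prop := ∀ (f : Polynomial ℂ) (ε : ℝ) (k : ℕ) (N : Set ℂ) (V : ℕ → Sq → ℂ)
  (A : ℕ → Sq → Set ℂ) (χ : Sq → ℂ) (C : ℝ), Base f → Loc f ε → N ⊆ FK f →
  (∀ z ∈ N, infDist z (FJ f) < ε) → Tree (it f k) N V A χ C → 1 ≤ k →
  (∀ s, χ s ∈ FJ f) ∧ (Set.range χ).Infinite

/-- many periodic points of `J` which are accessible from `U` -/
def Per (f : Polynomial ℂ) (ε : ℝ) (U : Set ℂ) : Prop :=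
  ∀ ρ : ℝ, 0 < ρ → ρ ≤ ε → ∃ v ∈ U, ∃ X : Set ℂ, X.Infinite ∧ X ⊆ FJ f ∧
    ∀ x ∈ X, ∃ p : ℕ, 1 ≤ p ∧ it f p x = x ∧
      (∃ A ⊆ U, IsPreconnected A ∧ v ∈ A ∧ x ∈ closure A ∧ A ⊆ ball x ρ) ∧
      ∀ j : ℕ, 1 ≤ j → ∀ g : ℂ → ℂ, IB f ε x (p * j) g → g v ∈ U

/-- PER -/
def S_per : Prop := ∀ (f : Polynomial ℂ) (ε : ℝ) (k : ℕ) (U N : Set ℂ) (V : ℕ → Sq → ℂ)
  (A : ℕ → Sq → Set ℂ) (χ : Sq → ℂ) (C : ℝ), Base f → Loc f ε → Cmp f U → N ⊆ U →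
  Tree (it f k) N V A χ C → 1 ≤ k → (∀ s, χ s ∈ FJ f) → (Set.range χ).Infinite → Per f ε U

/-- the final configuration: two close periodic points of the boundary of `U` -/
structure Cfg (f : Polynomial ℂ) (ψ : ℝ → ℂ) (U : Set ℂ) (ε : ℝ) (x y : ℂ) (θ₁ θ₂ : ℝ) (n : ℕ)
    (gx gy : ℂ → ℂ) : Prop where
  xy : x ≠ y
  hx : ψ θ₁ = x
  hy : ψ θ₂ = y
  lt : θ₁ < θ₂
  lt1 : θ₂ < θ₁ + 1
  n2 : 2 ≤ n
  fx : it f n x = x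
  fy : it f n y = y
  ax : ∃ m : ℤ, (f.natDegree : ℝ) ^ n * θ₁ = θ₁ + m
  ay : ∃ m : ℤ, (f.natDegree : ℝ) ^ n * θ₂ = θ₂ + m
  bx : IB f ε x n gx
  bY : IB f ε y n gy
  osc : ∀ s t : ℝ, |s - t| ≤ θ₂ - θ₁ → dist (ψ s) (ψ t) < ε
  cx : x ∈ closure U
  cy : y ∈ closure U
  cxy : gx y ∈ closure U
  cyx : gy x ∈ closure U

/-- PICK -/
def S_pick : Prop := S_inv → S_ang → ∀ (f : Polynomial ℂ) (ε : ℝ) (φ : ℂ → ℂ) (ψ : ℝ → ℂ)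
  (U : Set ℂ), Base f → Loc f ε → Bott f φ → Loop f φ ψ → Cmp f U → Per f ε U →
  ∃ (x y : ℂ) (θ₁ θ₂ : ℝ) (n : ℕ) (gx gy : ℂ → ℂ), Cfg f ψ U ε x y θ₁ θ₂ n gx gy

/-- the abstract configuration -/
structure Abs (J E E' M : Set ℂ) (x y : ℂ) (gx gy : ℂ → ℂ) : Prop where
  xy : x ≠ y
  cE : IsCompact E
  cE' : IsCompact E'
  cM : IsCompact M
  union : E ∪ E' = J
  inter : E ∩ E' = {x, y}
  gxx : gx x = x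
  gyy : gy y = y
  part : gx '' E ∪ M ∪ gy '' E = E
  i1 : gx '' E ∩ M = {gx y}
  i2 : M ∩ gy '' E = {gy x}
  i3 : Disjoint (gx '' E) (gy '' E)
  xM : x ∉ M
  yM : y ∉ M
  cgx : ∀ z ∈ E, ∀ w ∈ E, dist (gx z) (gx w) ≤ 2 / 3 * dist z w
  cgy : ∀ z ∈ E, ∀ w ∈ E, dist (gy z) (gy w) ≤ 2 / 3 * dist z w
  lgx : ∃ L : ℝ, 0 < L ∧ ∀ z ∈ E, ∀ w ∈ E, dist z w ≤ L * dist (gx z) (gx w)
  lgy : ∃ L : ℝ, 0 < L ∧ ∀ z ∈ E, ∀ w ∈ E, dist z w ≤ L * dist (gy z) (gy w)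

/-- REL -/
def S_rel : Prop := S_sep → ∀ (f : Polynomial ℂ) (ε : ℝ) (φ : ℂ → ℂ) (ψ : ℝ → ℂ) (U : Set ℂ)
  (x y : ℂ) (θ₁ θ₂ : ℝ) (n : ℕ) (gx gy : ℂ → ℂ), Base f → Loc f ε → Bott f φ → Loop f φ ψ →
  Cmp f U → Cfg f ψ U ε x y θ₁ θ₂ n gx gy →
  ∃ E E' M : Set ℂ, Abs (FJ f) E E' M x y gx gy ∧ E ⊆ ball x ε ∧ E ⊆ ball y ε

/-- linear separation of two sets with respect to their common points -/
def LS (A B : Set ℂ) : Prop := ∃ C : ℝ, 0 < C ∧ ∀ z ∈ A, ∀ z' ∈ B,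
  (∃ c ∈ A ∩ B, dist z c + dist z' c ≤ C * dist z z') ∨ 1 ≤ C * dist z z'

/-- LSLOC -/
def S_lsloc : Prop := ∀ (f : Polynomial ℂ) (ε : ℝ) (n : ℕ) (x : ℂ) (g : ℂ → ℂ), Base f →
  Loc f ε → 1 ≤ n → x ∈ FJ f → it f n x = x → IB f ε x n g →
  ∀ (E E' : Set ℂ) (r₀ : ℝ), 0 < r₀ → IsCompact E → IsCompact E' → E ⊆ ball x ε →
  g '' E ⊆ E → E ∩ ball x r₀ ⊆ g '' E → E ∩ E' ∩ ball x r₀ ⊆ {x} → E ∪ E' = FJ f →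
  x ∈ E → x ∈ E' →
  ∃ r : ℝ, 0 < r ∧ ∃ C : ℝ, 0 < C ∧ ∀ z ∈ E, ∀ z' ∈ E', dist z x < r → dist z' x < r →
    dist z x + dist z' x ≤ C * dist z z'

/-- LSX -/
def S_lsx : Prop := S_lsloc → ∀ (f : Polynomial ℂ) (ε : ℝ) (n : ℕ) (x y : ℂ) (gx gy : ℂ → ℂ)
  (E E' M : Set ℂ), Base f → Loc f ε → 1 ≤ n → it f n x = x → it f n y = y →
  IB f ε x n gx → IB f ε y n gy → Abs (FJ f) E E' M x y gx gy → E ⊆ ball x ε → E ⊆ ball y ε →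
  LS E E'

/-- LSM -/
def S_lsm : Prop := ∀ (f : Polynomial ℂ) (ε : ℝ) (n : ℕ) (x y : ℂ) (gx gy : ℂ → ℂ)
  (E E' M : Set ℂ), Base f → Loc f ε → 1 ≤ n → it f n x = x → it f n y = y →
  IB f ε x n gx → Abs (FJ f) E E' M x y gx gy → E ⊆ ball x ε →
  LS E E' → LS (gx '' E) M

/-- bi-Lipschitz bijections glue -/
def S_pw : Prop := ∀ (J : Set ℂ) (P Q : Fin 4 → Set ℂ) (F : Fin 4 → ℂ → ℂ) (L : ℝ),
  Bornology.IsBounded J → (⋃ i, P i) = J → (⋃ i, Q i) = J → (∀ i, F i '' P i = Q i) →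
  (∀ i, ∀ z ∈ P i, ∀ w ∈ P i, dist (F i z) (F i w) ≤ L * dist z w) →
  (∀ i, ∀ z ∈ P i, ∀ w ∈ P i, dist z w ≤ L * dist (F i z) (F i w)) →
  (∀ i j, i ≠ j → F i '' (P i ∩ P j) = Q i ∩ Q j) →
  (∀ i j, ∀ z ∈ P i ∩ P j, F i z = F j z) →
  (∀ i j, i ≠ j → LS (P i) (P j)) → (∀ i j, i ≠ j → LS (Q i) (Q j)) →
  ∃ h : J ≃ₜ J, (∀ i, ∀ z : J, (z : ℂ) ∈ P i → ((h z : J) : ℂ) = F i z) ∧
    ∃ L' : ℝ, 1 ≤ L' ∧ (∀ z w : J, dist (h z) (h w) ≤ L' * dist z w) ∧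
      (∀ z w : J, dist z w ≤ L' * dist (h z) (h w))

/-- GLUE: a bi-Lipschitz homeomorphism with a wandering orbit -/
def S_glue : Prop := S_pw → ∀ (J E E' M : Set ℂ) (x y : ℂ) (gx gy : ℂ → ℂ),
  Abs J E E' M x y gx gy → LS E E' → LS (gx '' E) M → LS M (gy '' E) →
  ∃ h : J ≃ₜ J, (∃ L' : ℝ, 1 ≤ L' ∧ (∀ z w : J, dist (h z) (h w) ≤ L' * dist z w) ∧
      (∀ z w : J, dist z w ≤ L' * dist (h z) (h w))) ∧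
    ∃ p : ℕ → J, (∀ j, h (p (j + 1)) = p j) ∧ Function.Injective p

/-- the conclusion -/
def QSInf (J : Set ℂ) : Prop :=
  ¬ Set.Finite {h : J ≃ₜ J | ∃ η : ℝ → ℝ, η 0 = 0 ∧
          StrictMonoOn η (Set.Ici 0) ∧ ContinuousOn η (Set.Ici 0) ∧
          Tendsto η atTop atTop ∧
          ∀ a x y : J, y ≠ a →
            dist (h x) (h a) ≤ η (dist x a / dist y a) * dist (h y) (h a)}

/-- POW -/
def S_pow : Prop := ∀ (J : Set ℂ) (h : J ≃ₜ J) (p : ℕ → J), Function.Injective p →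
  (∀ j, h (p (j + 1)) = p j) →
  (∃ L' : ℝ, 1 ≤ L' ∧ (∀ z w : J, dist (h z) (h w) ≤ L' * dist z w) ∧
      (∀ z w : J, dist z w ≤ L' * dist (h z) (h w))) → QSInf J

end Pool.Agent.W261.QJ
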