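import Pool.Agent.W261.QJ.Stm

set_option autoImplicit false
open Filter Topology Set Metric

namespace Pool.Agent.W261.QJ

theorem ip_eval (f : Polynomial ℂ) (n : ℕ) (z : ℂ) : (ip f n).eval z = it f n z := by
  unfold ip it
  rw [Polynomial.iterate_comp_eval, Polynomial.eval_X]

theorem it_zero (f : Polynomial ℂ) (z : ℂ) : it f 0 z = z := rfl

theorem it_succ (f : Polynomial ℂ) (n : ℕ) (z : ℂ) : it f (n + 1) z = f.eval (it f n z) := by
  unfold it
  rw [Function.iterate_succ_apply']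

theorem it_succ' (f : Polynomial ℂ) (n : ℕ) (z : ℂ) : it f (n + 1) z = it f n (f.eval z) := by
  unfold it
  rw [Function.iterate_succ_apply]

theorem it_add (f : Polynomial ℂ) (m n : ℕ) (z : ℂ) : it f (m + n) z = it f m (it f n z) := by
  unfold it
  rw [Function.iterate_add_apply]

theorem it_ip (f : Polynomial ℂ) (n k : ℕ) (z : ℂ) : it (ip f n) k z = it f (n * k) z := by
  induction k with
  | zero => simp [it_zero]
  | succ k ih =>
    rw [it_succ, ih, ip_eval, ← it_add]
    congr 1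
    ring

theorem continuous_it (f : Polynomial ℂ) (n : ℕ) : Continuous (it f n) := by
  have : it f n = fun z => (ip f n).eval z := by
    funext z; rw [ip_eval]
  rw [this]
  exact (ip f n).continuous

theorem ip_succ (f : Polynomial ℂ) (n : ℕ) : ip f (n + 1) = f.comp (ip f n) := by
  unfold ip
  rw [Function.iterate_succ_apply']

theorem ip_zero (f : Polynomial ℂ) : ip f 0 = Polynomial.X := rfl

theorem natDegree_ip (f : Polynomial ℂ) (n : ℕ) : (ip f n).natDegree = f.natDegree ^ n := by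
  induction n with
  | zero => simp [ip_zero]
  | succ n ih => rw [ip_succ, Polynomial.natDegree_comp, ih, pow_succ, mul_comm]

theorem FK_iff (f : Polynomial ℂ) (z : ℂ) : z ∈ FK f ↔ ∃ M : ℝ, ∀ n : ℕ, ‖it f n z‖ ≤ M := by
  unfold FK
  rw [mem_ofPred_eq, isBounded_iff_forall_norm_le]
  constructor
  · rintro ⟨M, hM⟩
    exact ⟨M, fun n => hM _ ⟨n, rfl⟩⟩
  · rintro ⟨M, hM⟩
    refine ⟨M, ?_⟩
    rintro _ ⟨n, rfl⟩
    exact hM n

theorem FK_ip (f : Polynomial ℂ) (n : ℕ) (hn : 1 ≤ n) : FK (ip f n) = FK f := by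
  ext z
  rw [FK_iff, FK_iff]
  constructor
  · rintro ⟨M, hM⟩
    -- images of the bounded set under the first n iterates
    have hb : ∀ j : ℕ, ∃ B : ℝ, ∀ w ∈ closedBall (0 : ℂ) M, ‖it f j w‖ ≤ B := fun j =>
      (isCompact_closedBall (0 : ℂ) M).exists_bound_of_continuousOn (continuous_it f j).continuousOn
    choose B hB using hb
    refine ⟨∑ j ∈ Finset.range n, |B j|, fun k => ?_⟩
    have h1 : k = k % n + n * (k / n) := (Nat.mod_add_div k n).symm
    rw [h1, it_add, ← it_ip]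
    have h2 : ‖it (ip f n) (k / n) z‖ ≤ M := hM _
    have h3 := hB (k % n) (it (ip f n) (k / n) z) (by simpa using h2)
    refine h3.trans ((le_abs_self _).trans ?_)
    exact Finset.single_le_sum (f := fun j => |B j|) (fun i _ => abs_nonneg _)
      (Finset.mem_range.2 (Nat.mod_lt _ hn))
  · rintro ⟨M, hM⟩
    refine ⟨M, fun k => ?_⟩
    rw [it_ip]
    exact hM _

theorem FJ_ip (f : Polynomial ℂ) (n : ℕ) (hn : 1 ≤ n) : FJ (ip f n) = FJ f := by
  unfold FJ; rw [FK_ip f n hn]

theorem inv_it {f : Polynomial ℂ} {P : Set ℂ} (h : ∀ z ∈ P, f.eval z ∈ P) (n : ℕ) :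
    ∀ z ∈ P, it f n z ∈ P := by
  induction n with
  | zero => intro z hz; exact hz
  | succ n ih => intro z hz; rw [it_succ]; exact h _ (ih z hz)

theorem crit_it {f : Polynomial ℂ} {P : Set ℂ} (h : ∀ z ∈ P, f.eval z ∈ P)
    (hc : ∀ c : ℂ, f.derivative.eval c = 0 → f.eval c ∈ P) (n : ℕ) :
    ∀ c : ℂ, (ip f n).derivative.eval c = 0 → (ip f n).eval c ∈ P := by
  induction n with
  | zero => intro c h0; simp [ip_zero] at h0
  | succ n ih =>
    intro c h0
    rw [ip_succ, Polynomial.derivative_comp, Polynomial.eval_mul, Polynomial.eval_comp] at h0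
    rw [ip_succ, Polynomial.eval_comp]
    rcases mul_eq_zero.1 h0 with h1 | h1
    · exact h _ (ih c h1)
    · exact hc _ h1

theorem HS_ip {f : Polynomial ℂ} {P : Set ℂ} {n : ℕ} (hn : 1 ≤ n) (h : HS f P) : HS (ip f n) P := by
  refine ⟨?_, ?_, h.closed, ?_, crit_it h.inv h.crit n, ?_⟩
  · rw [natDegree_ip]
    have h1 := h.deg
    calc 2 ≤ f.natDegree := h1
      _ = f.natDegree ^ 1 := (pow_one _).symm
      _ ≤ f.natDegree ^ n := Nat.pow_le_pow_right (by omega) hn
  · rw [FJ_ip f n hn]; exact h.conn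
  · intro z hz; rw [ip_eval]; exact inv_it h.inv n z hz
  · rw [FJ_ip f n hn]; exact h.disj

/-- ITER -/
theorem iter : S_iter :=
  ⟨ip_eval, it_ip, FK_ip, fun _ _ _ hn h => HS_ip hn h⟩

end Pool.Agent.W261.QJ
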