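import Pool.Agent.W261.QJ.Stm
import Pool.Agent.Helper240.ZFM.C2

set_option autoImplicit false
open Filter Topology Set Metric

namespace Pool.Agent.W261.QJ

/-- SQRT -/
theorem sqrt : S_sqrt := by
  intro W hWo hWc hFC u hu hne
  have hd : DifferentiableOn ℂ (fun z => deriv u z / u z) W :=
    (hu.deriv hWo).div hu hne
  obtain ⟨G, hG⟩ := ZFM.J_c2.primitive_of_good hWo hFC _ hd
  obtain ⟨z0, hz0⟩ := hWc.nonempty
  have hud : ∀ z ∈ W, HasDerivAt u (deriv u z) z := fun z hz =>
    (hu.differentiableAt (hWo.mem_nhds hz)).hasDerivAt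
  -- u exp(-G) is constant
  have h0 : ∀ z ∈ W, HasDerivAt (fun z => u z * Complex.exp (-G z)) 0 z := by
    intro z hz
    have h1 := (hud z hz).mul ((hG z hz).neg.cexp)
    refine h1.congr_deriv ?_
    have := hne z hz
    simp only [Pi.neg_apply]
    field_simp
    ring
  have hcst : ∀ z ∈ W, u z * Complex.exp (-G z) = u z0 * Complex.exp (-G z0) := by
    intro z hz
    refine hWo.is_const_of_deriv_eq_zero hWc.isPreconnected
      (fun w hw => (h0 w hw).differentiableAt.differentiableWithinAt) ?_ hz hz0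
    intro w hw
    exact (h0 w hw).deriv
  obtain ⟨c, hc⟩ := IsAlgClosed.exists_pow_nat_eq (u z0 * Complex.exp (-G z0)) (n := 2) (by norm_num)
  refine ⟨fun z => c * Complex.exp (G z / 2), ?_, ?_⟩
  · intro z hz
    exact (((hG z hz).div_const 2).cexp.const_mul c).differentiableAt.differentiableWithinAt
  · intro z hz
    show (c * Complex.exp (G z / 2)) ^ 2 = u z
    rw [mul_pow, hc, ← hcst z hz, ← Complex.exp_nat_mul, mul_assoc, ← Complex.exp_add]
    have : -G z + ((2 : ℕ) : ℂ) * (G z / 2) = 0 := by push_cast; ring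
    rw [this, Complex.exp_zero, mul_one]

end Pool.Agent.W261.QJ
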